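import Mathlib
import Pool.Agent.Helper542.EG.Inst

set_option autoImplicit false

namespace Pool.Agent.Results.MP_c5aac2_co.PlayerTwoSurvives

open Pool.Agent.Helper542.EG

theorem roundBig {U M A : Finset ℤ} (h : Inv U M) (hd : Disjoint U A) (hA : 4396 ≤ A.card) :
    ∃ e : ℤ, Even e ∧ e ∉ M ∧ (∃ a ∈ A, ∃ a' ∈ A, a ≤ e ∧ e ≤ a') ∧ Inv (U ∪ A) (insert e M) := by
  have hL : PP.L 0 = 2048 := LL_zero
  obtain ⟨e, h1, h2, h3, c, h4⟩ := key PP_N2 h.bdd hd (by rw [hL]; omega)
  refine ⟨e, h2, h3, h1, ?_⟩
  obtain ⟨T, hT⟩ := h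
  refine ⟨max T c, fun i hi q => ?_⟩
  exact (propagate PP Finset.subset_union_left h4 i ((le_max_right _ _).trans hi) q).trans
    (hT i ((le_max_left _ _).trans hi) q)

def GoodReply (s : Finset ℤ × Finset ℤ) (A : Finset ℤ) (e : ℤ) : Prop :=
  Even e ∧ e ∉ s.2 ∧ (∃ a ∈ A, ∃ a' ∈ A, a ≤ e ∧ e ≤ a') ∧ Inv (s.1 ∪ A) (insert e s.2)

open Classical in
noncomputable def pick (s : Finset ℤ × Finset ℤ) (A : Finset ℤ) : ℤ :=
  if h : ∃ e, GoodReply s A e then h.choose else 0

def toZ (A : Finset ℕ) : Finset ℤ := A.map Nat.castEmbedding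

noncomputable def step (s : Finset ℤ × Finset ℤ) (A : Finset ℕ) : Finset ℤ × Finset ℤ :=
  (s.1 ∪ toZ A, insert (pick s (toZ A)) s.2)

noncomputable def state (l : List (Finset ℕ)) : Finset ℤ × Finset ℤ := l.foldl step (∅, ∅)

theorem state_append (l : List (Finset ℕ)) (A : Finset ℕ) :
    state (l ++ [A]) = step (state l) A := by
  unfold state; rw [List.foldl_append]; rfl

noncomputable def tau (l : List (Finset ℕ)) : ℕ :=
  (pick (state l.dropLast) (toZ (l.getLastD ∅))).toNat

theorem tau_append (l : List (Finset ℕ)) (A : Finset ℕ) :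
    tau (l ++ [A]) = (pick (state l) (toZ A)).toNat := by
  unfold tau
  simp

theorem range_map (A : ℕ → Finset ℕ) (n : ℕ) :
    (List.range (n+1)).map A = (List.range n).map A ++ [A n] := by
  rw [List.range_succ, List.map_append]; rfl

theorem used_mem (A : ℕ → Finset ℕ) (n : ℕ) (z : ℤ)
    (hz : z ∈ (state ((List.range n).map A)).1) : ∃ i < n, z ∈ toZ (A i) := by
  induction n with
  | zero => simp [state] at hz
  | succ n ih =>
    rw [range_map, state_append] at hz
    rcases Finset.mem_union.1 hz with h | h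
    · obtain ⟨i, hi, h2⟩ := ih h
      exact ⟨i, by omega, h2⟩
    · exact ⟨n, by omega, h⟩

theorem marked_mem (A : ℕ → Finset ℕ) (n : ℕ) (i : ℕ) (hi : i < n) :
    pick (state ((List.range i).map A)) (toZ (A i)) ∈ (state ((List.range n).map A)).2 := by
  induction n with
  | zero => omega
  | succ n ih =>
    rw [range_map, state_append]
    rcases Nat.lt_succ_iff_lt_or_eq.1 hi with h | h
    · exact Finset.mem_insert_of_mem (ih h)
    · subst h; exact Finset.mem_insert_self _ _

theorem main_inv (k : ℕ) (hk : 4396 ≤ k) (A : ℕ → Finset ℕ) (n : ℕ)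
    (hc : ∀ i ≤ n, (A i).card = k) (hd : ∀ i j, i < j → j ≤ n → Disjoint (A i) (A j)) :
    Inv (state ((List.range n).map A)).1 (state ((List.range n).map A)).2 ∧
      GoodReply (state ((List.range n).map A)) (toZ (A n))
        (pick (state ((List.range n).map A)) (toZ (A n))) := by
  have step2 : Inv (state ((List.range n).map A)).1 (state ((List.range n).map A)).2 →
      GoodReply (state ((List.range n).map A)) (toZ (A n))
        (pick (state ((List.range n).map A)) (toZ (A n))) := by
    intro hinv
    have hdis : Disjoint (state ((List.range n).map A)).1 (toZ (A n)) := by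
      rw [Finset.disjoint_left]
      intro z hz hz2
      obtain ⟨i, hi, h3⟩ := used_mem A n z hz
      unfold toZ at hz2 h3
      obtain ⟨a, ha, rfl⟩ := Finset.mem_map.1 hz2
      obtain ⟨b, hb, hab⟩ := Finset.mem_map.1 h3
      have hab2 : b = a := Nat.castEmbedding.injective hab
      subst hab2
      exact Finset.disjoint_left.1 (hd i n hi le_rfl) hb ha
    have hcard : 4396 ≤ (toZ (A n)).card := by
      unfold toZ
      rw [Finset.card_map, hc n le_rfl]
      exact hk
    obtain ⟨e, h1, h2, h3, h4⟩ := roundBig hinv hdis hcard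
    have hex : ∃ e, GoodReply (state ((List.range n).map A)) (toZ (A n)) e :=
      ⟨e, h1, h2, h3, h4⟩
    unfold pick
    rw [dif_pos hex]
    exact hex.choose_spec
  refine ⟨?_, ?_⟩
  · clear step2
    induction n with
    | zero => simpa [state] using Inv_init
    | succ n ih =>
      rw [range_map, state_append]
      have hc' : ∀ i ≤ n, (A i).card = k := fun i hi => hc i (by omega)
      have hd' : ∀ i j, i < j → j ≤ n → Disjoint (A i) (A j) := fun i j h1 h2 => hd i j h1 (by omega)
      have hinv := ih hc' hd'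
      have hdis : Disjoint (state ((List.range n).map A)).1 (toZ (A n)) := by
        rw [Finset.disjoint_left]
        intro z hz hz2
        obtain ⟨i, hi, h3⟩ := used_mem A n z hz
        unfold toZ at hz2 h3
        obtain ⟨a, ha, rfl⟩ := Finset.mem_map.1 hz2
        obtain ⟨b, hb, hab⟩ := Finset.mem_map.1 h3
        have hab2 : b = a := Nat.castEmbedding.injective hab
        subst hab2
        exact Finset.disjoint_left.1 (hd' i n hi le_rfl) hb ha
      have hcard : 4396 ≤ (toZ (A n)).card := by
        unfold toZ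
        rw [Finset.card_map, hc' n le_rfl]
        exact hk
      obtain ⟨e, h1, h2, h3, h4⟩ := roundBig hinv hdis hcard
      have hex : ∃ e, GoodReply (state ((List.range n).map A)) (toZ (A n)) e :=
        ⟨e, h1, h2, h3, h4⟩
      have hp : pick (state ((List.range n).map A)) (toZ (A n)) = hex.choose := by
        unfold pick
        rw [dif_pos hex]
      unfold step
      rw [hp]
      exact hex.choose_spec.2.2.2
  · apply step2
    clear step2
    induction n with
    | zero => simpa [state] using Inv_init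
    | succ n ih =>
      rw [range_map, state_append]
      have hc' : ∀ i ≤ n, (A i).card = k := fun i hi => hc i (by omega)
      have hd' : ∀ i j, i < j → j ≤ n → Disjoint (A i) (A j) := fun i j h1 h2 => hd i j h1 (by omega)
      have hinv := ih hc' hd'
      have hdis : Disjoint (state ((List.range n).map A)).1 (toZ (A n)) := by
        rw [Finset.disjoint_left]
        intro z hz hz2
        obtain ⟨i, hi, h3⟩ := used_mem A n z hz
        unfold toZ at hz2 h3
        obtain ⟨a, ha, rfl⟩ := Finset.mem_map.1 hz2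
        obtain ⟨b, hb, hab⟩ := Finset.mem_map.1 h3
        have hab2 : b = a := Nat.castEmbedding.injective hab
        subst hab2
        exact Finset.disjoint_left.1 (hd' i n hi le_rfl) hb ha
      have hcard : 4396 ≤ (toZ (A n)).card := by
        unfold toZ
        rw [Finset.card_map, hc' n le_rfl]
        exact hk
      obtain ⟨e, h1, h2, h3, h4⟩ := roundBig hinv hdis hcard
      have hex : ∃ e, GoodReply (state ((List.range n).map A)) (toZ (A n)) e :=
        ⟨e, h1, h2, h3, h4⟩
      have hp : pick (state ((List.range n).map A)) (toZ (A n)) = hex.choose := by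
        unfold pick
        rw [dif_pos hex]
      unfold step
      rw [hp]
      exact hex.choose_spec.2.2.2

/-- For every `k ≥ 4396`, Player 2 has a strategy `τ` in the even number game `G_k` on the natural
numbers, a function of the list of the moves of Player 1 so far, which always gives a legal reply. -/
theorem result (k : ℕ) (hk : 4396 ≤ k) :
    ∃ τ : List (Finset ℕ) → ℕ, ∀ (A : ℕ → Finset ℕ) (n : ℕ),
      (∀ i ≤ n, (A i).card = k) →
      (∀ i j, i < j → j ≤ n → Disjoint (A i) (A j)) →
      Even (τ ((List.range (n+1)).map A)) ∧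
      (∃ a ∈ A n, a ≤ τ ((List.range (n+1)).map A)) ∧
      (∃ c ∈ A n, τ ((List.range (n+1)).map A) ≤ c) ∧
      ∀ i < n, τ ((List.range (i+1)).map A) ≠ τ ((List.range (n+1)).map A) := by
  refine ⟨tau, ?_⟩
  intro A n hc hd
  obtain ⟨_, h1, h2, ⟨a, ha, c, hc2, hac, hcc⟩, _⟩ := main_inv k hk A n hc hd
  unfold toZ at ha hc2
  obtain ⟨a', ha', rfl⟩ := Finset.mem_map.1 ha
  obtain ⟨c', hc', rfl⟩ := Finset.mem_map.1 hc2
  have e1 : (Nat.castEmbedding a' : ℤ) = (a' : ℤ) := rfl
  have e2 : (Nat.castEmbedding c' : ℤ) = (c' : ℤ) := rfl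
  rw [e1] at hac
  rw [e2] at hcc
  have key1 : ∀ i ≤ n, (((tau ((List.range (i+1)).map A)) : ℕ) : ℤ) =
      pick (state ((List.range i).map A)) (toZ (A i)) := by
    intro i hi
    rw [range_map, tau_append]
    obtain ⟨_, _, _, ⟨x, hx, _, _, hxa, _⟩, _⟩ := main_inv k hk A i
      (fun j hj => hc j (by omega)) (fun j j' h1 h2 => hd j j' h1 (by omega))
    unfold toZ at hx
    obtain ⟨x', _, rfl⟩ := Finset.mem_map.1 hx
    have e3 : (Nat.castEmbedding x' : ℤ) = (x' : ℤ) := rfl
    rw [e3] at hxa
    exact Int.toNat_of_nonneg (by omega)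
  have hn := key1 n le_rfl
  refine ⟨?_, ⟨a', ha', ?_⟩, ⟨c', hc', ?_⟩, ?_⟩
  · rw [← hn] at h1
    exact_mod_cast h1
  · rw [← hn] at hac
    exact_mod_cast hac
  · rw [← hn] at hcc
    exact_mod_cast hcc
  · intro i hi heq
    apply h2
    have hi2 := key1 i hi.le
    rw [← hn, ← heq, hi2]
    exact marked_mem A n i hi

end Pool.Agent.Results.MP_c5aac2_co.PlayerTwoSurvives
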